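import Mathlib

set_option autoImplicit false
set_option linter.unusedSectionVars false

open Finset

namespace Pool.Agent.H.MP_9095c8_co

variable {G : Type} [AddCommGroup G] [Fintype G] [DecidableEq G]

structure Good (u : G → ℝ) : Prop where
  sq : ∀ x, u x * u x = 1
  cor : ∀ a b, a ≠ b → |∑ y, u (a + y) * u (b + y)| ≤ 3

theorem Good.abs {u : G → ℝ} (hu : Good u) (x : G) : |u x| ≤ 1 := by
  have := hu.sq x
  rw [abs_le]; constructor <;> nlinarith

theorem Good.cases {u : G → ℝ} (hu : Good u) (x : G) : u x = 1 ∨ u x = -1 :=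
  mul_self_eq_one_iff.1 (hu.sq x)

theorem bil {u : G → ℝ} (hu : Good u) {B : ℝ} (hB0 : 0 ≤ B)
    (hB : 4 * (Fintype.card G : ℝ) ^ 3 ≤ B ^ 2) (e : G → G) (he : Function.Injective e)
    (g h : G → ℝ) (hg : ∀ x, |g x| ≤ 1) (hh : ∀ x, |h x| ≤ 1) :
    |∑ x, ∑ y, u (e x + y) * (g x * h y)| ≤ B := by
  set N : ℝ := (Fintype.card G : ℝ) with hN
  have hN0 : 0 ≤ N := by positivity
  refine abs_le_of_sq_le_sq' ?_ hB0 |> abs_le.2
  have e1 : ∑ x, ∑ y, u (e x + y) * (g x * h y) = ∑ y, h y * ∑ x, u (e x + y) * g x := by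
    rw [sum_comm]
    refine sum_congr rfl (fun y _ => ?_)
    rw [mul_sum]; exact sum_congr rfl (fun x _ => by ring)
  rw [e1]
  refine (sum_mul_sq_le_sq_mul_sq _ _ _).trans (le_trans ?_ hB)
  have h1 : ∑ y, h y ^ 2 ≤ N := by
    refine (sum_le_sum (g := fun _ => (1:ℝ)) (fun y _ => ?_)).trans (by simp [hN])
    rw [← sq_abs]; nlinarith [hh y, abs_nonneg (h y)]
  have h2 : ∑ y, (∑ x, u (e x + y) * g x) ^ 2 ≤ 4 * N ^ 2 := by
    have : ∑ y, (∑ x, u (e x + y) * g x) ^ 2 =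
        ∑ x, ∑ x', (g x * g x') * ∑ y, u (e x + y) * u (e x' + y) := by
      simp only [sq, sum_mul_sum]
      simp only [mul_sum]
      rw [sum_comm]
      refine sum_congr rfl (fun x _ => ?_)
      rw [sum_comm]
      exact sum_congr rfl (fun x' _ => sum_congr rfl (fun y _ => by ring))
    rw [this]
    have h3 : ∀ x x', (g x * g x') * ∑ y, u (e x + y) * u (e x' + y) ≤
        3 + if x = x' then N else 0 := by
      intro x x'
      refine (le_abs_self _).trans ?_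
      rw [abs_mul, abs_mul]
      have h4 : |g x| * |g x'| ≤ 1 := mul_le_one₀ (hg x) (abs_nonneg _) (hg x')
      refine (mul_le_of_le_one_left (abs_nonneg _) h4).trans ?_
      split_ifs with h5
      · subst h5
        simp only [hu.sq, sum_const, card_univ, nsmul_eq_mul, mul_one]
        rw [abs_of_nonneg hN0]; linarith
      · simpa using hu.cor _ _ (he.ne h5)
    refine (sum_le_sum (fun x _ => sum_le_sum (fun x' _ => h3 x x'))).trans (le_of_eq ?_)
    simp only [sum_add_distrib, sum_const, card_univ, nsmul_eq_mul, sum_ite_eq, mem_univ, if_true]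
    ring
  calc _ ≤ N * (4 * N ^ 2) := mul_le_mul h1 h2 (sum_nonneg (fun _ _ => sq_nonneg _)) hN0
    _ = _ := by ring

theorem bilC {u : G → ℝ} (hu : Good u) {B : ℝ} (hB0 : 0 ≤ B)
    (hB : 4 * (Fintype.card G : ℝ) ^ 3 ≤ B ^ 2)
    (g h : G → ℂ) (hg : ∀ x, ‖g x‖ ≤ 1) (hh : ∀ x, ‖h x‖ ≤ 1) :
    ‖∑ x, ∑ y, (u (x + y) : ℂ) * (g x * h y)‖ ≤ 4 * B := by
  have r := fun (f : G → ℂ) (hf : ∀ x, ‖f x‖ ≤ 1) x => (Complex.abs_re_le_norm (f x)).trans (hf x)
  have i := fun (f : G → ℂ) (hf : ∀ x, ‖f x‖ ≤ 1) x => (Complex.abs_im_le_norm (f x)).trans (hf x)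
  have b1 := abs_le.1 (bil hu hB0 hB id Function.injective_id _ _ (r g hg) (r h hh))
  have b2 := abs_le.1 (bil hu hB0 hB id Function.injective_id _ _ (i g hg) (i h hh))
  have b3 := abs_le.1 (bil hu hB0 hB id Function.injective_id _ _ (r g hg) (i h hh))
  have b4 := abs_le.1 (bil hu hB0 hB id Function.injective_id _ _ (i g hg) (r h hh))
  refine (Complex.norm_le_abs_re_add_abs_im _).trans ?_
  simp only [Complex.re_sum, Complex.im_sum, Complex.re_ofReal_mul, Complex.im_ofReal_mul]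
  simp only [Complex.mul_re, Complex.mul_im, mul_sub, mul_add, sum_sub_distrib, sum_add_distrib,
    id] at *
  have c1 := abs_le.2 (And.intro (show -(2 * B) ≤ _ from by linarith [b1.1, b2.2])
    (show (∑ x, ∑ y, u (x + y) * ((g x).re * (h y).re)) -
      ∑ x, ∑ y, u (x + y) * ((g x).im * (h y).im) ≤ 2 * B from by linarith [b1.2, b2.1]))
  have c2 := abs_le.2 (And.intro (show -(2 * B) ≤ _ from by linarith [b3.1, b4.1])
    (show (∑ x, ∑ y, u (x + y) * ((g x).re * (h y).im)) +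
      ∑ x, ∑ y, u (x + y) * ((g x).im * (h y).re) ≤ 2 * B from by linarith [b3.2, b4.2]))
  linarith

noncomputable def II (u : G → ℝ) (x y : G) : ℝ :=
  (3 - u x * u y - u y * u (x + y) - u x * u (x + y)) / 4

theorem II_cases {u : G → ℝ} (hu : Good u) (x y : G) : II u x y = 1 ∨ II u x y = 0 := by
  unfold II
  rcases hu.cases x with h1 | h1 <;> rcases hu.cases y with h2 | h2 <;>
    rcases hu.cases (x + y) with h3 | h3 <;> rw [h1, h2, h3] <;> norm_num

theorem II_abs {u : G → ℝ} (hu : Good u) (x y : G) : |II u x y| ≤ 1 := by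
  rcases II_cases hu x y with h | h <;> simp [h]

theorem four {u : G → ℝ} (hu : Good u) {B : ℝ} (hB0 : 0 ≤ B)
    (hB : 4 * (Fintype.card G : ℝ) ^ 3 ≤ B ^ 2) (a b : G → ℂ) (ha : ∀ x, ‖a x‖ ≤ 1)
    (hb : ∀ x, ‖b x‖ ≤ 1) (hm : ∀ x y, a (x + y) = a x * a y) :
    ‖∑ x, ∑ y, (II u x y : ℂ) * (a x * b y) - 3 / 4 * ((∑ x, a x) * ∑ y, b y)‖ ≤ 3 * B := by
  have hn : ∀ (f : G → ℂ), (∀ x, ‖f x‖ ≤ 1) → ∀ x, ‖(u x : ℂ) * f x‖ ≤ 1 := by
    intro f hf x
    rw [norm_mul, Complex.norm_real]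
    exact mul_le_one₀ (hu.abs x) (norm_nonneg _) (hf x)
  have b1 := bilC hu hB0 hB a _ ha (hn (fun y => a y * b y) (fun y => by
    rw [norm_mul]; exact mul_le_one₀ (ha y) (norm_nonneg _) (hb y)))
  have b2 := bilC hu hB0 hB a _ ha (hn b hb)
  have b3 := bilC hu hB0 hB _ b (hn a ha) hb
  have e1 : ∑ x, ∑ y, (u (x + y) : ℂ) * (a x * (u y * (a y * b y))) =
      ∑ x, ∑ y, (u x : ℂ) * u y * (a x * b y) := by
    rw [sum_comm, sum_comm (f := fun x y => (u x : ℂ) * u y * (a x * b y))]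
    refine sum_congr rfl (fun y _ => ?_)
    rw [← Equiv.sum_comp (Equiv.addRight y) (fun x => (u x : ℂ) * u y * (a x * b y))]
    exact sum_congr rfl (fun x _ => by simp only [Equiv.coe_addRight, hm]; ring)
  rw [e1] at b1
  have e2 : ∑ x, ∑ y, (II u x y : ℂ) * (a x * b y) - 3 / 4 * ((∑ x, a x) * ∑ y, b y) =
      -(1 / 4) * ((∑ x, ∑ y, (u x : ℂ) * u y * (a x * b y)) +
        (∑ x, ∑ y, (u (x + y) : ℂ) * (a x * (u y * b y))) +
        ∑ x, ∑ y, (u (x + y) : ℂ) * (u x * a x * b y)) := by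
    rw [sum_mul_sum]
    simp only [mul_sum, ← sum_add_distrib, ← sum_sub_distrib]
    exact sum_congr rfl (fun x _ => sum_congr rfl (fun y _ => by
      simp only [II]; push_cast; ring))
  rw [e2, norm_mul]
  have := norm_add₃_le (a := ∑ x, ∑ y, (u x : ℂ) * u y * (a x * b y))
    (b := ∑ x, ∑ y, (u (x + y) : ℂ) * (a x * (u y * b y)))
    (c := ∑ x, ∑ y, (u (x + y) : ℂ) * (u x * a x * b y))
  have h4 : ‖(-(1 / 4) : ℂ)‖ = 1 / 4 := by simp
  rw [h4]; linarith

theorem tri {u : G → ℝ} (hu : Good u) {B : ℝ} (hB0 : 0 ≤ B)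
    (hB : 4 * (Fintype.card G : ℝ) ^ 3 ≤ B ^ 2) (e : G → G) (he : Function.Injective e)
    (g h : G → G → ℝ) (hg : ∀ z x, |g z x| ≤ 1) (hh : ∀ z x, |h z x| ≤ 1) :
    -(2 * Fintype.card G * B) ≤ ∑ z, ∑ x, ∑ y, u (e x + y) * (u x + u y) * (g z x * h z y) := by
  have hn : ∀ (f : G → ℝ), (∀ x, |f x| ≤ 1) → ∀ x, |u x * f x| ≤ 1 := by
    intro f hf x
    rw [abs_mul]
    exact mul_le_one₀ (hu.abs x) (abs_nonneg _) (hf x)
  refine le_trans (le_of_eq ?_) (sum_le_sum (f := fun _ => -(2 * B)) (fun z _ => ?_))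
  · simp; ring
  · have b1 := abs_le.1 (bil hu hB0 hB e he _ _ (hn _ (hg z)) (hh z))
    have b2 := abs_le.1 (bil hu hB0 hB e he _ _ (hg z) (hn _ (hh z)))
    have : ∑ x, ∑ y, u (e x + y) * (u x + u y) * (g z x * h z y) =
        ∑ x, ∑ y, u (e x + y) * (u x * g z x * h z y) +
        ∑ x, ∑ y, u (e x + y) * (g z x * (u y * h z y)) := by
      simp only [← sum_add_distrib]
      exact sum_congr rfl (fun x _ => sum_congr rfl (fun y _ => by ring))
    linarith [b1.1, b2.1]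

theorem corners {u : G → ℝ} (hu : Good u) {B : ℝ} (hB0 : 0 ≤ B)
    (hB : 4 * (Fintype.card G : ℝ) ^ 3 ≤ B ^ 2) :
    ∑ x, ∑ y, ∑ d, II u x y * II u (x + d) y * II u x (y + d) ≤
      26 / 64 * (Fintype.card G : ℝ) ^ 3 + 3 / 2 * Fintype.card G * B := by
  set N : ℝ := (Fintype.card G : ℝ) with hN
  have hN0 : 0 ≤ N := by positivity
  let f : G → G → ℝ := fun x y => (3 - u x * u y) / 4
  have hf : ∀ x y, |f x y| ≤ 1 := by
    intro x y
    simp only [f]
    rcases hu.cases x with h1 | h1 <;> rcases hu.cases y with h2 | h2 <;> rw [h1, h2] <;> norm_num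
  have t1 := tri hu hB0 hB id Function.injective_id (fun s x => II u x (-x + s))
    (fun s y => II u (-y + s) y) (fun _ _ => II_abs hu _ _) (fun _ _ => II_abs hu _ _)
  have t2 := tri hu hB0 hB Neg.neg neg_injective (fun x y => f x y)
    (fun x s => II u x (-x + s)) hf (fun _ _ => II_abs hu _ _)
  have t3 := tri hu hB0 hB Neg.neg neg_injective (fun y x => f x y)
    (fun y s => f y s) (fun _ _ => hf _ _) hf
  rw [sum_comm] at t1 t3
  rw [sum_congr rfl (fun x _ => sum_comm)] at t1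
  have t0 : ∑ x, ∑ y, ∑ s, (26 - 6 * (u x * u y + u y * u s + u x * u s)) / 64 ≤
      26 / 64 * N ^ 3 := by
    have : ∑ x, ∑ y, ∑ s, (26 - 6 * (u x * u y + u y * u s + u x * u s)) / 64 =
        26 / 64 * N ^ 3 - 18 / 64 * N * (∑ x, u x) ^ 2 := by
      simp only [← sum_div, sum_sub_distrib, sum_add_distrib, ← mul_sum, ← sum_mul, sum_const,
        card_univ, nsmul_eq_mul, ← hN]
      ring
    rw [this]
    have : 0 ≤ 18 / 64 * N * (∑ x, u x) ^ 2 := by positivity
    linarith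
  have e : ∑ x, ∑ y, ∑ d, II u x y * II u (x + d) y * II u x (y + d) =
      ∑ x, ∑ y, ∑ s, (26 - 6 * (u x * u y + u y * u s + u x * u s)) / 64 - 1 / 4 *
      ((∑ x, ∑ y, ∑ s, u (id x + y) * (u x + u y) * (II u x (-x + s) * II u (-y + s) y)) +
       (∑ x, ∑ y, ∑ s, u (-y + s) * (u y + u s) * (f x y * II u x (-x + s))) +
        ∑ x, ∑ y, ∑ s, u (-x + s) * (u x + u s) * (f x y * f y s)) := by
    simp only [mul_sum, ← sum_add_distrib, ← sum_sub_distrib]
    refine sum_congr rfl (fun x _ => sum_congr rfl (fun y _ => ?_))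
    rw [← Equiv.sum_comp (Equiv.addRight (-(x + y)))]
    refine sum_congr rfl (fun s _ => ?_)
    have a1 : x + (s + -(x + y)) = -y + s := by abel
    have a2 : y + (s + -(x + y)) = -x + s := by abel
    have a3 : -y + s + y = s := by abel
    have a4 : x + (-x + s) = s := by abel
    simp only [Equiv.coe_addRight, a1, a2, II, a3, a4, f, id]
    rcases hu.cases x with h1 | h1 <;> rcases hu.cases y with h2 | h2 <;>
      rcases hu.cases s with h3 | h3 <;> rw [h1, h2, h3] <;> ring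
  rw [e]; linarith

theorem exists_good (p : ℕ) [Fact p.Prime] (hp : p ≠ 2) : ∃ u : ZMod p → ℝ, Good u := by
  have hc : ringChar (ZMod p) ≠ 2 := by rwa [ZMod.ringChar_zmod_n]
  let χ : ZMod p → ℝ := fun x => (quadraticChar (ZMod p) x : ℤ)
  have h0 : χ 0 = 0 := by simp [χ]
  have h1 : ∀ x, x ≠ 0 → χ x * χ x = 1 := by
    intro x hx
    simp only [χ]
    rw [← sq]; exact_mod_cast quadraticChar_sq_one hx
  have hm : ∀ x y, χ (x * y) = χ x * χ y := by intro x y; simp only [χ, map_mul]; push_cast; rfl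
  have hs : ∑ x, χ x = 0 := by
    simp only [χ]; exact_mod_cast quadraticChar_sum_zero hc
  have ha : ∀ x, |χ x| ≤ 1 := by
    intro x
    by_cases hx : x = 0
    · simp [hx, h0]
    · have := h1 x hx
      rw [abs_le]; constructor <;> nlinarith
  have hone : χ 1 = 1 := by simp [χ]
  have hcor : ∀ t, t ≠ 0 → ∑ y, χ y * χ (t + y) = -1 := by
    intro t ht
    have : ∀ y, χ y * χ (t + y) = χ (y⁻¹ * t + 1) - if y = 0 then 1 else 0 := by
      intro y
      split_ifs with hy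
      · simp [hy, h0, hone]
      · have : t + y = y * (y⁻¹ * t + 1) := by field_simp
        rw [this, hm, ← mul_assoc, h1 y hy]; ring
    simp only [this, sum_sub_distrib, sum_ite_eq', mem_univ, if_true]
    have := Equiv.sum_comp ((Equiv.inv (ZMod p)).trans ((Equiv.mulRight₀ t ht).trans
      (Equiv.addRight 1))) χ
    rw [hs] at this
    simpa using this
  refine ⟨fun x => χ x + if x = 0 then 1 else 0, fun x => ?_, fun a b hab => ?_⟩
  · split_ifs with hx
    · simp [hx, h0]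
    · simpa using h1 x hx
  · rw [← Equiv.sum_comp (Equiv.addRight (-a))]
    have ht : b - a ≠ 0 := sub_ne_zero.2 hab.symm
    have a1 : ∀ y, a + (y + -a) = y := fun y => by abel
    have a2 : ∀ y, b + (y + -a) = b - a + y := fun y => by abel
    simp only [Equiv.coe_addRight, a1, a2]
    generalize b - a = t at ht
    have : ∀ y, (χ y + if y = 0 then 1 else 0) * (χ (t + y) + if t + y = 0 then 1 else 0) =
        χ y * χ (t + y) + ((if y = 0 then χ t else 0) + if y = -t then χ (-t) else 0) := by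
      intro y
      by_cases hy : y = 0
      · simp [hy, ht, h0, ht.symm]
      · by_cases hy' : y = -t
        · simp [hy', ht, h0]
        · have : t + y ≠ 0 := fun h => hy' (eq_neg_of_add_eq_zero_right h)
          simp [hy, hy', this]
    simp only [this, sum_add_distrib, hcor t ht, sum_ite_eq', mem_univ, if_true]
    have := abs_le.1 (ha t)
    have := abs_le.1 (ha (-t))
    rw [abs_le]; constructor <;> linarith

theorem main (ε : ℝ) (hε : 0 < ε) (M : ℕ) : ∃ n : ℕ, M ≤ n + 1 ∧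
        ∃ A : Finset (ZMod (n + 1) × ZMod (n + 1)),
          |(A.card : ℝ) / ((n : ℝ) + 1) ^ 2 - 3 / 4| ≤ ε ∧
          (∀ r : ZMod (n + 1) × ZMod (n + 1), r ≠ 0 →
            ‖∑ x ∈ A, Complex.exp (2 * (Real.pi : ℂ) * Complex.I *
                (((r.1 * x.1 + r.2 * x.2 : ZMod (n + 1)).val : ℂ)) / ((n : ℂ) + 1))‖
              ≤ ε * ((n : ℝ) + 1) ^ 2) ∧
          (((Finset.univ : Finset (ZMod (n + 1) × ZMod (n + 1) × ZMod (n + 1))).filter
              (fun t : ZMod (n + 1) × ZMod (n + 1) × ZMod (n + 1) =>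
                (t.1, t.2.1) ∈ A ∧ (t.1 + t.2.2, t.2.1) ∈ A ∧ (t.1, t.2.1 + t.2.2) ∈ A)).card : ℝ)
            ≤ ((3 / 4) ^ 3 - 1 / 128) * ((n : ℝ) + 1) ^ 3 := by
  classical
  obtain ⟨η, h0, h1, h2⟩ : ∃ η : ℝ, 0 < η ∧ η ≤ ε / 3 ∧ η ≤ 1 / 192 :=
    ⟨min (ε / 3) (1 / 192), by positivity, min_le_left _ _, min_le_right _ _⟩
  obtain ⟨K, hK⟩ := exists_nat_ge (4 / η ^ 2)
  obtain ⟨p, hp, hpp⟩ := Nat.exists_infinite_primes (M + K + 3)
  obtain ⟨n, rfl⟩ : ∃ n, p = n + 1 := ⟨p - 1, by omega⟩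
  haveI : Fact (n + 1).Prime := ⟨hpp⟩
  obtain ⟨u, hu⟩ := exists_good (n + 1) (by omega)
  have hc : (Fintype.card (ZMod (n + 1)) : ℝ) = n + 1 := by simp
  have hN : (0:ℝ) < n + 1 := by positivity
  have hB0 : 0 ≤ η * ((n:ℝ) + 1) ^ 2 := by positivity
  have hB : 4 * (Fintype.card (ZMod (n + 1)) : ℝ) ^ 3 ≤ (η * ((n:ℝ) + 1) ^ 2) ^ 2 := by
    rw [hc]
    have : 4 ≤ η ^ 2 * (n + 1) := by
      rw [div_le_iff₀ (by positivity)] at hK
      have : (K : ℝ) ≤ n + 1 := by exact_mod_cast (by omega : K ≤ n + 1)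
      nlinarith [sq_pos_of_pos h0]
    nlinarith [pow_pos hN 3]
  let A : Finset (ZMod (n + 1) × ZMod (n + 1)) := univ.filter (fun p => II u p.1 p.2 = 1)
  have hA : ∀ f : ZMod (n + 1) × ZMod (n + 1) → ℂ,
      ∑ x ∈ A, f x = ∑ x, ∑ y, (II u x y : ℂ) * f (x, y) := by
    intro f
    rw [sum_filter, Fintype.sum_prod_type]
    refine sum_congr rfl (fun x _ => sum_congr rfl (fun y _ => ?_))
    rcases II_cases hu x y with h | h <;> simp [h]
  refine ⟨n, by omega, A, ?_, fun r hr => ?_, ?_⟩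
  · have := four hu hB0 hB (fun _ => 1) (fun _ => 1) (by simp) (by simp) (by simp)
    rw [← hA (fun _ => 1 * 1)] at this
    have e : (∑ x ∈ A, (1 * 1 : ℂ)) - 3 / 4 * ((∑ _x : ZMod (n + 1), (1:ℂ)) * ∑ _y : ZMod (n + 1), 1)
        = (((A.card : ℝ) - 3 / 4 * ((n:ℝ) + 1) ^ 2 : ℝ) : ℂ) := by
      simp [sq]
    rw [e, Complex.norm_real, Real.norm_eq_abs] at this
    have e2 : (A.card : ℝ) / ((n : ℝ) + 1) ^ 2 - 3 / 4 =
        ((A.card : ℝ) - 3 / 4 * ((n:ℝ) + 1) ^ 2) / ((n:ℝ) + 1) ^ 2 := by field_simp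
    rw [e2, abs_div, abs_of_pos (pow_pos hN 2), div_le_iff₀ (pow_pos hN 2)]
    nlinarith [pow_pos hN 2]
  · let ψ : AddChar (ZMod (n + 1)) ℂ := ZMod.stdAddChar
    have hψ : ∀ x, ‖ψ x‖ ≤ 1 := fun x => (Circle.norm_coe _).le
    have := four hu hB0 hB (fun x => ψ (x * r.1)) (fun x => ψ (x * r.2)) (fun _ => hψ _)
      (fun _ => hψ _) (fun x y => by rw [add_mul, ψ.map_add_eq_mul])
    rw [← hA (fun x => ψ (x.1 * r.1) * ψ (x.2 * r.2)),
      AddChar.sum_mulShift _ (ZMod.isPrimitive_stdAddChar _),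
      AddChar.sum_mulShift _ (ZMod.isPrimitive_stdAddChar _)] at this
    have e : ∀ x : ZMod (n + 1) × ZMod (n + 1), Complex.exp (2 * (Real.pi : ℂ) * Complex.I *
        (((r.1 * x.1 + r.2 * x.2 : ZMod (n + 1)).val : ℂ)) / ((n : ℂ) + 1)) =
        ψ (x.1 * r.1) * ψ (x.2 * r.2) := by
      intro x
      rw [← ψ.map_add_eq_mul, ZMod.stdAddChar_apply, ZMod.toCircle_apply, mul_comm x.1,
        mul_comm x.2]
      push_cast; rfl
    simp only [e]
    have hz : r.1 ≠ 0 ∨ r.2 ≠ 0 := by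
      by_contra hcon
      push Not at hcon
      exact hr (Prod.ext hcon.1 hcon.2)
    rcases hz with hz | hz <;> simp only [if_neg hz, Nat.cast_zero, zero_mul, mul_zero, sub_zero]
      at this <;> nlinarith [pow_pos hN 2]
  · have := corners hu hB0 hB
    rw [hc] at this
    refine le_trans (le_of_eq ?_) (this.trans ?_)
    · rw [card_filter, Nat.cast_sum, Fintype.sum_prod_type]
      refine sum_congr rfl (fun x _ => ?_)
      rw [Fintype.sum_prod_type]
      refine sum_congr rfl (fun y _ => sum_congr rfl (fun d _ => ?_))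
      rcases II_cases hu x y with a | a <;> rcases II_cases hu (x + d) y with b | b <;>
        rcases II_cases hu x (y + d) with c | c <;> simp [A, a, b, c]
    · nlinarith [pow_pos hN 3]

end Pool.Agent.H.MP_9095c8_co
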